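import Pool.Agent.RHO.Stmts3

/-!
# MP_ca8ef3_an, row HI2: the order drops by exactly `k`, up to a small probability
-/

set_option autoImplicit false

namespace Pool.Agent.RHO.H17c

open Finset

variable {ι : Type} [Fintype ι] [DecidableEq ι]

theorem pr_mul (τ p f : Fn ι) : pr (τ * p) f = pr τ (p * f) := by
  unfold pr
  exact Finset.sum_congr rfl fun z _ => by rw [Pi.mul_apply, Pi.mul_apply, mul_assoc]

theorem pr_add (τ f g : Fn ι) : pr τ (f + g) = pr τ f + pr τ g := by
  simp only [pr, Pi.add_apply, mul_add, Finset.sum_add_distrib]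

theorem pr_smul (τ : Fn ι) (c : ZMod 2) (f : Fn ι) : pr τ (c • f) = c * pr τ f := by
  simp only [pr, Pi.smul_apply, smul_eq_mul, Finset.mul_sum]
  exact Finset.sum_congr rfl fun z _ => by ring

theorem z2_sq (a : ZMod 2) : a * a = a := by
  revert a
  decide

theorem mon_mul (A A' : Finset ι) : mon A * mon A' = mon (A ∪ A') := by
  funext z
  rw [Pi.mul_apply]
  unfold mon
  rw [← Finset.prod_union_inter]
  have h : ∀ S T : Finset ι, S ⊆ T → (∏ i ∈ T, z i) * ∏ i ∈ S, z i = ∏ i ∈ T, z i := by
    intro S T hST
    rw [← Finset.prod_sdiff hST, mul_assoc, ← Finset.prod_mul_distrib]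
    congr 1
    exact Finset.prod_congr rfl fun i _ => z2_sq (z i)
  exact h _ _ (Finset.inter_subset_left.trans Finset.subset_union_left)

/-- HI2 -/
theorem hi2 (rmb : RMBStmt) : HI2Stmt := by
  classical
  intro ι _ _ k τ B hOrd hk hkB
  obtain ⟨_, hmul, hmon, _⟩ := rmb ι
  obtain ⟨hB, hV⟩ := hOrd
  refine ⟨?_, ?_⟩
  · obtain ⟨A₀, hA₀, hA₀c⟩ := Finset.exists_subset_card_eq (show k - 1 ≤ B.card by omega)
    have hI : (B \ A₀).card = B.card - k + 1 := by
      rw [Finset.card_sdiff_of_subset hA₀, hA₀c]
      omega
    have hmem : ∀ j : {x // x ∈ B \ A₀}, mon (insert (j : ι) A₀) ∈ RM ι k := by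
      intro j
      have h1 := hmon (insert (j : ι) A₀)
      rw [Finset.card_insert_of_notMem (Finset.mem_sdiff.1 j.2).2, hA₀c] at h1
      rwa [Nat.sub_add_cancel hk] at h1
    have hins : ∀ j : {x // x ∈ B \ A₀}, insert (j : ι) A₀ ⊆ B := by
      intro j x hx
      rcases Finset.mem_insert.1 hx with rfl | hx
      · exact (Finset.mem_sdiff.1 j.2).1
      · exact hA₀ hx
    -- the pairing of the two families
    have hpair : ∀ i j : {x // x ∈ B \ A₀},
        pr τ (mon (insert (j : ι) A₀) * mon (B \ insert (i : ι) A₀)) = if j = i then 1 else 0 := by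
      intro i j
      rw [mon_mul]
      by_cases hij : j = i
      · subst hij
        rw [if_pos rfl, Finset.union_sdiff_of_subset (hins j), hB]
      · rw [if_neg hij]
        have hlt : (insert (j : ι) A₀ ∪ B \ insert (i : ι) A₀).card < B.card := by
          apply Finset.card_lt_card
          rw [Finset.ssubset_iff_subset_ne]
          constructor
          · exact Finset.union_subset (hins j) Finset.sdiff_subset
          · intro h
            have h1 : (i : ι) ∈ insert (j : ι) A₀ ∪ B \ insert (i : ι) A₀ := by
              rw [h]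
              exact (Finset.mem_sdiff.1 i.2).1
            rcases Finset.mem_union.1 h1 with h2 | h2
            · rcases Finset.mem_insert.1 h2 with h3 | h3
              · exact hij (Subtype.ext h3.symm)
              · exact (Finset.mem_sdiff.1 i.2).2 h3
            · exact (Finset.mem_sdiff.1 h2).2 (Finset.mem_insert_self _ _)
        exact hV _ hlt _ (hmon _)
    -- the section
    let s : ({x // x ∈ B \ A₀} → ZMod 2) → RM ι k := fun c =>
      ∑ j, c j • (⟨mon (insert (j : ι) A₀), hmem j⟩ : RM ι k)
    have hs : ∀ (c : {x // x ∈ B \ A₀} → ZMod 2) (i : {x // x ∈ B \ A₀}), pr τ (((s c : RM ι k) : Fn ι) * mon (B \ insert (i : ι) A₀)) = c i := by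
      intro c i
      have h1 : ((s c : RM ι k) : Fn ι) = ∑ j, c j • mon (insert (j : ι) A₀) := by
        simp [s]
      rw [h1, Finset.sum_mul]
      have h2 : ∀ S : Finset {x // x ∈ B \ A₀}, pr τ (∑ j ∈ S,
          c j • mon (insert (j : ι) A₀) * mon (B \ insert (i : ι) A₀)) =
          ∑ j ∈ S, c j * (if j = i then 1 else 0) := by
        intro S
        induction S using Finset.induction_on with
        | empty => simp [pr]
        | insert j S hj ih =>
          rw [Finset.sum_insert hj, Finset.sum_insert hj, pr_add, ih, smul_mul_assoc, pr_smul,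
            hpair]
      rw [h2]
      simp
    have hadd : ∀ (p q : RM ι k) (i : {x // x ∈ B \ A₀}),
        pr τ (((p + q : RM ι k) : Fn ι) * mon (B \ insert (i : ι) A₀)) =
          pr τ ((p : Fn ι) * mon (B \ insert (i : ι) A₀)) +
          pr τ ((q : Fn ι) * mon (B \ insert (i : ι) A₀)) := by
      intro p q i
      rw [Submodule.coe_add, add_mul, pr_add]
    have hker : ∀ p : RM ι k, (∀ f ∈ RM ι (B.card - k), pr (τ * (p : Fn ι)) f = 0) →
        ∀ i : {x // x ∈ B \ A₀}, pr τ ((p : Fn ι) * mon (B \ insert (i : ι) A₀)) = 0 := by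
      intro p hp i
      rw [← pr_mul]
      apply hp
      have h1 := hmon (B \ insert (i : ι) A₀)
      rw [Finset.card_sdiff_of_subset (hins i),
        Finset.card_insert_of_notMem (Finset.mem_sdiff.1 i.2).2, hA₀c,
        Nat.sub_add_cancel hk] at h1
      exact h1
    have hcard : (univ.filter fun p : RM ι k =>
        ∀ f ∈ RM ι (B.card - k), pr (τ * (p : Fn ι)) f = 0).card * 2 ^ (B.card - k + 1) ≤
        Fintype.card (RM ι k) := by
      have h1 : Fintype.card ({x // x ∈ B \ A₀} → ZMod 2) = 2 ^ (B.card - k + 1) := by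
        rw [Fintype.card_fun, ZMod.card, Fintype.card_coe, hI]
      rw [← h1, ← Finset.card_univ, ← Finset.card_product, ← Finset.card_univ]
      apply Finset.card_le_card_of_injOn (fun x => x.1 + s x.2)
      · intro x _
        exact Finset.mem_coe.2 (Finset.mem_univ _)
      · rintro ⟨p, c⟩ hx ⟨q, c'⟩ hy hxy
        have hp := (Finset.mem_filter.1 (Finset.mem_product.1 (Finset.mem_coe.1 hx)).1).2
        have hq := (Finset.mem_filter.1 (Finset.mem_product.1 (Finset.mem_coe.1 hy)).1).2
        have hxy' : p + s c = q + s c' := hxy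
        have hc : c = c' := by
          funext i
          have h2 := hadd p (s c) i
          have h3 := hadd q (s c') i
          rw [hker p hp i, zero_add, hs] at h2
          rw [hker q hq i, zero_add, hs] at h3
          rw [← h2, ← h3, hxy']
        subst hc
        rw [add_right_cancel hxy']
    exact_mod_cast hcard
  · intro p hp e he f hf
    rw [pr_mul]
    exact hV (k + e) (by omega) _ (hmul k e p f hp hf)

end Pool.Agent.RHO.H17c
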